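import Pool.Agent.Helper92.PV.St

/-!
# Project PV, module SIE: Siegel's lemma for integral vectors with vanishing determinants
(general form of Pool/Agent/Helper91/PW/M_RNK.lean)
-/

set_option autoImplicit false

noncomputable section

namespace Pool.Agent.Helper6.PV

open Pool.Agent.Helper92.PV Pool.Agent.Helper92.PU Pool.Agent.Helper92.PW Finset

attribute [local instance] Matrix.seminormedAddCommGroup

/-- the rational vector -/
def vQ {n : ℕ} (v : Fin n → Pt → ℤ) (p : Pt) : Fin n → ℚ := fun j => ((v j p : ℤ) : ℚ)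

/-- vectors with vanishing determinant are linearly dependent -/
theorem sieDet {n : ℕ} (v : Fin n → Pt → ℤ) (w : Fin n → Pt)
    (h : Matrix.det (Matrix.of fun i j : Fin n => v j (w i)) = 0) :
    ¬ LinearIndependent ℚ (fun i => vQ v (w i)) := by
  intro hli
  have h1 : (fun i => vQ v (w i)) = (Matrix.of fun i j : Fin n => ((v j (w i) : ℤ) : ℚ)).row := by
    funext i j
    rfl
  rw [h1, Matrix.linearIndependent_rows_iff_isUnit, Matrix.isUnit_iff_isUnit_det] at hli
  have h2 : (Matrix.of fun i j : Fin n => ((v j (w i) : ℤ) : ℚ)).det =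
      ((Matrix.det (Matrix.of fun i j : Fin n => v j (w i)) : ℤ) : ℚ) := by
    exact (Int.cast_det (Matrix.of fun i j : Fin n => v j (w i))).symm
  rw [h2, h] at hli
  simp at hli

/-- Siegel's lemma for fewer than n rows and n columns -/
theorem sieSiegel {κ : Type} [Fintype κ] (n : ℕ) (hn : 1 ≤ n) (M : ℝ) (hM : 1 ≤ M)
    (hc : Fintype.card κ < n)
    (A : Matrix κ (Fin n) ℤ) (hA : ∀ i j, |(A i j : ℝ)| ≤ M) :
    ∃ Q : Fin n → ℤ, Q ≠ 0 ∧ (∀ j, |(Q j : ℝ)| ≤ (n * M) ^ n) ∧ ∀ i, ∑ j, A i j * Q j = 0 := by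
  have hn1 : (1 : ℝ) ≤ n := by exact_mod_cast hn
  have hb1 : 1 ≤ (n : ℝ) * M := by nlinarith
  rcases Nat.eq_zero_or_pos (Fintype.card κ) with h0 | h0
  · refine ⟨fun _ => 1, ?_, ?_, ?_⟩
    · intro h
      have := congrFun h ⟨0, hn⟩
      simp at this
    · intro j
      simp only [Int.cast_one, abs_one]
      exact one_le_pow₀ hb1
    · intro i
      exact absurd (Fintype.card_eq_zero_iff.mp h0) (fun h => h.elim i)
  · have hlt : Fintype.card κ < Fintype.card (Fin n) := by
      rw [Fintype.card_fin]; omega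
    obtain ⟨t, ht0, htA, htn⟩ := Int.Matrix.exists_ne_zero_int_vec_norm_le A hlt h0
    refine ⟨t, ht0, ?_, ?_⟩
    · intro j
      have h1 : |(t j : ℝ)| ≤ ‖t‖ := by
        rw [← Int.norm_eq_abs]; exact norm_le_pi_norm t j
      refine h1.trans (htn.trans ?_)
      have h2 : ‖A‖ ≤ M := by
        rw [Matrix.norm_le_iff (by positivity)]
        intro i j
        rw [Int.norm_eq_abs]; exact hA i j
      have h3 : max 1 ‖A‖ ≤ M := max_le hM h2
      have h4 : (1 : ℝ) ≤ max 1 ‖A‖ := le_max_left _ _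
      rw [Fintype.card_fin]
      have hk : (1 : ℝ) ≤ Fintype.card κ := by exact_mod_cast h0
      have hk5 : (Fintype.card κ : ℝ) + 1 ≤ n := by exact_mod_cast hc
      have he : (Fintype.card κ : ℝ) / (n - Fintype.card κ) ≤ (n : ℝ) := by
        rw [div_le_iff₀ (by linarith)]
        nlinarith
      have hb : 1 ≤ (n : ℝ) * max 1 ‖A‖ := by nlinarith
      calc ((n : ℝ) * max 1 ‖A‖) ^ ((Fintype.card κ : ℝ) / (n - Fintype.card κ))
          ≤ ((n : ℝ) * max 1 ‖A‖) ^ (n : ℝ) :=
            Real.rpow_le_rpow_of_exponent_le hb he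
        _ = ((n : ℝ) * max 1 ‖A‖) ^ n := Real.rpow_natCast _ n
        _ ≤ (n * M) ^ n := pow_le_pow_left₀ (by positivity)
            (mul_le_mul_of_nonneg_left h3 (by positivity)) n
    · intro i
      have := congrFun htA i
      simpa [Matrix.mulVec, dotProduct] using this

theorem hSIE : StSIE := by
  intro n M T v hn hM hdet hbd
  obtain ⟨κ, a, ha, hspan, hli⟩ := exists_linearIndependent' ℚ (fun p : {p // p ∈ T} => vQ v p.1)
  have hfin : Finite κ := Finite.of_injective a ha
  have : Fintype κ := Fintype.ofFinite κ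
  have hcard6 : Fintype.card κ ≤ n := by
    have := hli.fintype_card_le_finrank
    simpa using this
  have hcard : Fintype.card κ < n := by
    by_contra hcon
    have h6 : Fintype.card κ = n := by omega
    have e : Fin n ≃ κ := (Fintype.equivFinOfCardEq h6).symm
    have hli2 := hli.comp e e.injective
    exact sieDet v (fun i => (a (e i)).1) (hdet _ (fun i => (a (e i)).2)) hli2
  obtain ⟨Q, hQ0, hQb, hQ⟩ := sieSiegel n hn M hM hcard (fun i j => v j (a i).1)
    (fun i j => hbd _ (a i).2 j)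
  refine ⟨Q, hQ0, hQb, ?_⟩
  intro p hp
  have hmem : vQ v p ∈ Submodule.span ℚ (Set.range ((fun p : {p // p ∈ T} => vQ v p.1) ∘ a)) := by
    rw [hspan]
    exact Submodule.subset_span ⟨⟨p, hp⟩, rfl⟩
  have key : ∑ j, (Q j : ℚ) * vQ v p j = 0 := by
    refine Submodule.span_induction (p := fun x _ => ∑ j, (Q j : ℚ) * x j = 0) ?_ ?_ ?_ ?_ hmem
    · rintro x ⟨i, rfl⟩
      have h := hQ i
      have h2 : ((∑ j, v j (a i).1 * Q j : ℤ) : ℚ) = 0 := by rw [h]; simp
      rw [Int.cast_sum] at h2
      rw [← h2]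
      apply Finset.sum_congr rfl
      intro j _
      simp only [Function.comp, vQ]
      push_cast
      ring
    · simp
    · intro x y _ _ hx hy
      simp only [Pi.add_apply, mul_add, Finset.sum_add_distrib, hx, hy, add_zero]
    · intro c x _ hx
      have : ∑ j, (Q j : ℚ) * (c • x) j = c * ∑ j, (Q j : ℚ) * x j := by
        rw [Finset.mul_sum]
        apply Finset.sum_congr rfl
        intro j _
        simp only [Pi.smul_apply, smul_eq_mul]
        ring
      rw [this, hx, mul_zero]
  have h3 : ((∑ j, Q j * v j p : ℤ) : ℚ) = 0 := by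
    rw [← key]
    unfold vQ
    push_cast
    rfl
  exact_mod_cast h3

end Pool.Agent.Helper6.PV
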