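import Pool.Agent.Helper61.PV.St

/-!
# Project PV, module Upp: all classes modulo `W` together
-/

set_option autoImplicit false

namespace Pool.Agent.Helper6.PV

open Pool.Agent.Helper61.PV Finset

private theorem ev_lin_Upp {d : ℕ} (W : ℤ) (F g : Fin (d + 1) → ℤ) (m : ℤ) :
    ev (lin W F g) m = ev F m + W * ev g m := by
  unfold ev lin
  rw [Finset.mul_sum, ← Finset.sum_add_distrib]
  refine Finset.sum_congr rfl fun i _ => ?_
  ring

private theorem card_and_Upp {α : Type} (s : Finset α) (Q : α → Prop) [DecidablePred Q] :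
    Nat.card {x : α // x ∈ s ∧ Q x} = #(s.filter Q) :=
  Nat.subtype_card _ (by simp)

theorem hUpp (hCor : StCor) (hCrt : StCrt) (hBox : StBox) (hTop : StTop) (hCar : StCar) : StUpp := by
  classical
  intro ε hε
  obtain ⟨W, hW, hCor'⟩ := hCor (ε / 2) (by positivity)
  set κ : ℝ := min (ε / 4) (1 / 4) with hκ
  have hκ0 : 0 < κ := lt_min (by positivity) (by norm_num)
  have hκ1 : κ ≤ 1 / 4 := min_le_right _ _
  have hκ2 : κ ≤ ε / 4 := min_le_left _ _
  obtain ⟨C, H₁, hC, hCor''⟩ := hCor' κ hκ0 (by linarith)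
  obtain ⟨H₂, hBox'⟩ := hBox W κ hW hκ0 hκ1
  refine ⟨κ, C, max H₁ H₂, hκ0, hκ1, hC, ?_⟩
  intro H hH d hd hdH
  have hW0 : (0 : ℤ) < W := by exact_mod_cast hW
  -- the reduction modulo `W`
  set red : (Fin (d + 1) → ℤ) → (Fin (d + 1) → ℤ) := fun c i => c i % W with hred
  set Q : (Fin (d + 1) → ℤ) → Prop := fun c => ∀ m : ℕ, 1 + 8 / κ ≤ m →
    (m : ℝ) ≤ C * Sz H d → ¬ (ev c m).toNat.Prime with hQ
  set B2 : Finset (Fin (d + 1) → ℤ) := (Bxx d H).filter fun c =>
    NFD c ∧ κ * H ≤ ((c (Fin.last d) : ℤ) : ℝ) ∧ Q c with hB2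
  -- one class
  have key : ∀ F : Fin (d + 1) → ℤ, (∀ i, 0 ≤ F i ∧ F i < W) →
      (#(B2.filter fun c => red c = F) : ℝ) ≤ ε / 2 * #((Bxx d H).filter fun c => red c = F) := by
    intro F hF
    rcases (B2.filter fun c => red c = F).eq_empty_or_nonempty with he | ⟨c, hc⟩
    · rw [he, card_empty]
      push_cast
      positivity
    obtain ⟨A, h, hCond, hmem⟩ := hBox' H (le_of_max_le_right hH) d F hF
    have hlin : ∀ c : Fin (d + 1) → ℤ, red c = F → lin W F (fun i => c i / W) = c := by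
      intro c hc
      funext i
      have h1 : c i % W = F i := congrFun hc i
      show F i + W * (c i / W) = c i
      rw [← h1]
      exact Int.emod_add_mul_ediv _ _
    have hm0 : ∃ m₀ : ℕ, Nat.Coprime (ev F m₀).natAbs W := by
      rw [mem_filter, hB2, mem_filter] at hc
      obtain ⟨m₀, hm₀⟩ := hCrt d c W hW hc.1.2.1
      refine ⟨m₀, ?_⟩
      rw [← hlin c hc.2, ev_lin_Upp] at hm₀
      have h1 : IsCoprime (ev F m₀ + W * ev (fun i => c i / W) m₀) (W : ℤ) := by
        rw [Int.isCoprime_iff_nat_coprime]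
        simpa using hm₀
      have h2 : IsCoprime (ev F m₀) (W : ℤ) := by
        obtain ⟨a, b, hab⟩ := h1
        exact ⟨a, b + a * ev (fun i => c i / W) m₀, by linear_combination hab⟩
      rw [Int.isCoprime_iff_nat_coprime] at h2
      simpa using h2
    have h1 := hCor'' H (le_of_max_le_left hH) d hd hdH F A h hCond hm0
    have hcard : (#(Bx A h) : ℝ) = ∏ i, (h i : ℝ) := by
      rw [(hCar d A h).1]
      push_cast
      rfl
    rw [← hcard, card_and_Upp] at h1
    have h2 : #(B2.filter fun c => red c = F) ≤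
        #((Bx A h).filter fun g => ∀ m : ℕ, 1 + 8 / κ ≤ m →
          (m : ℝ) ≤ C * Sz H d → ¬ (ev (lin W F g) m).toNat.Prime) := by
      refine card_le_card_of_injOn (fun c i => c i / W) ?_ ?_
      · intro c hc
        rw [mem_coe, mem_filter, hB2, mem_filter] at hc
        rw [mem_coe, mem_filter, hmem, hlin c hc.2]
        exact ⟨⟨hc.1.1, hc.1.2.2.1⟩, hc.1.2.2.2⟩
      · intro c hc c' hc' hcc
        rw [mem_coe, mem_filter] at hc hc'
        rw [← hlin c hc.2, ← hlin c' hc'.2]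
        exact congrArg (lin (W : ℤ) F) hcc
    have h3 : #(Bx A h) ≤ #((Bxx d H).filter fun c => red c = F) := by
      refine card_le_card_of_injOn (fun g => lin W F g) ?_ ?_
      · intro g hg
        rw [mem_coe] at hg
        rw [mem_coe, mem_filter]
        refine ⟨((hmem g).1 hg).1, ?_⟩
        funext i
        show (F i + W * g i) % W = F i
        rw [Int.add_mul_emod_self_left, Int.emod_eq_of_lt (hF i).1 (hF i).2]
      · intro g _ g' _ hgg
        funext i
        have h4 : F i + W * g i = F i + W * g' i := congrFun hgg i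
        exact mul_left_cancel₀ hW0.ne' (by linarith)
    calc (#(B2.filter fun c => red c = F) : ℝ) ≤ _ := by exact_mod_cast h2
      _ ≤ ε / 2 * (#(Bx A h) : ℝ) := h1
      _ ≤ ε / 2 * #((Bxx d H).filter fun c => red c = F) := by
        have : (#(Bx A h) : ℝ) ≤ #((Bxx d H).filter fun c => red c = F) := by exact_mod_cast h3
        exact mul_le_mul_of_nonneg_left this (by positivity)
  -- sum over the classes
  have hB2c : (#B2 : ℝ) ≤ ε / 2 * #(Bxx d H) := by
    set T : Finset (Fin (d + 1) → ℤ) := Fintype.piFinset fun _ => Ico (0 : ℤ) W with hT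
    have hTm : ∀ c : Fin (d + 1) → ℤ, red c ∈ T := by
      intro c
      rw [hT, Fintype.mem_piFinset]
      intro i
      rw [mem_Ico]
      exact ⟨Int.emod_nonneg _ hW0.ne', Int.emod_lt_of_pos _ hW0⟩
    have h1 : #B2 = ∑ F ∈ T, #(B2.filter fun c => red c = F) :=
      card_eq_sum_card_fiberwise fun c _ => hTm c
    have h2 : #(Bxx d H) = ∑ F ∈ T, #((Bxx d H).filter fun c => red c = F) :=
      card_eq_sum_card_fiberwise fun c _ => hTm c
    rw [h1, h2]
    push_cast
    rw [mul_sum]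
    refine sum_le_sum fun F hF => key F fun i => ?_
    rw [hT, Fintype.mem_piFinset] at hF
    exact mem_Ico.1 (hF i)
  have hTop' := hTop d H κ hκ0
  rw [card_and_Upp] at hTop'
  rw [card_and_Upp]
  have hsub : ((Bxx d H).filter fun c => NFD c ∧
      ¬ (κ * H ≤ c (Fin.last d) ∧ ∃ m : ℕ, 1 + 8 / κ ≤ m ∧ (m : ℝ) ≤ C * Sz H d ∧
        (ev c m).toNat.Prime)) ⊆
      ((Bxx d H).filter fun c => ¬ κ * H ≤ c (Fin.last d)) ∪ B2 := by
    intro c hc
    rw [mem_filter] at hc
    rw [mem_union, mem_filter, hB2, mem_filter]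
    by_cases h : κ * H ≤ c (Fin.last d)
    · refine Or.inr ⟨hc.1, hc.2.1, h, fun m hm1 hm2 hm3 => hc.2.2 ⟨h, m, hm1, hm2, hm3⟩⟩
    · exact Or.inl ⟨hc.1, h⟩
  have h1 := (card_le_card hsub).trans (card_union_le _ _)
  have h2 : (#((Bxx d H).filter fun c => NFD c ∧
      ¬ (κ * H ≤ c (Fin.last d) ∧ ∃ m : ℕ, 1 + 8 / κ ≤ m ∧ (m : ℝ) ≤ C * Sz H d ∧
        (ev c m).toNat.Prime)) : ℝ) ≤
      #((Bxx d H).filter fun c => ¬ κ * H ≤ c (Fin.last d)) + #B2 := by exact_mod_cast h1
  have h3 : κ * (#(Bxx d H) : ℝ) ≤ ε / 4 * #(Bxx d H) :=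
    mul_le_mul_of_nonneg_right hκ2 (by positivity)
  have h4 : (0 : ℝ) ≤ ε / 4 * #(Bxx d H) := by positivity
  linarith

end Pool.Agent.Helper6.PV
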